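import Pool.Agent.Helper54.KW.SE3Core
import Pool.Agent.Helper28.KW.FC
import Pool.Agent.Helper67.KW.MN1
import Pool.Agent.Helper97.KW.SE1

/-!
# Piece SE3: lifting with norm control
-/

open CategoryTheory Topology
open scoped ENNReal

namespace Pool.Agent.KW

universe u v

namespace LiftAux

/-- matrices over a C*-algebra form a C*-algebra (canonical order on the entries) -/
noncomputable abbrev cmAlg (n A : Type*) [Fintype n] [NonUnitalCStarAlgebra A] :
    NonUnitalCStarAlgebra (CStarMatrix n n A) :=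
  letI := CStarAlgebra.spectralOrder A
  letI := CStarAlgebra.spectralOrderedRing A
  inferInstance

/-- the C*-algebra of matrices -/
def CM (n A : Type*) := CStarMatrix n n A

noncomputable instance (n A : Type*) [Fintype n] [NonUnitalCStarAlgebra A] :
    NonUnitalCStarAlgebra (CM n A) := cmAlg n A

section
variable {n A B : Type*} [Fintype n] [NonUnitalCStarAlgebra A] [NonUnitalCStarAlgebra B]

lemma cm_norm (M : CM n A) : ‖M‖ = matNorm (fun i j => M i j) := rfl
lemma cm_mul (M N : CM n A) (i k : n) : (M * N) i k = ∑ j, M i j * N j k := rfl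
lemma cm_add (M N : CM n A) (i k : n) : (M + N) i k = M i k + N i k := rfl
lemma cm_sub (M N : CM n A) (i k : n) : (M - N) i k = M i k - N i k := rfl
lemma cm_smul (c : ℂ) (M : CM n A) (i k : n) : (c • M) i k = c • M i k := rfl
lemma cm_star (M : CM n A) (i k : n) : (star M) i k = star (M k i) := CStarMatrix.star_apply

/-- entrywise application of a *-homomorphism -/
noncomputable def cmMap (φ : A →⋆ₙₐ[ℂ] B) : CM n A →⋆ₙₐ[ℂ] CM n B := CStarMatrix.mapₙₐ φ

lemma cmMap_apply (φ : A →⋆ₙₐ[ℂ] B) (M : CM n A) (i k : n) :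
    cmMap φ M i k = φ (M i k) := rfl

open CStarAlgebra in
lemma cmMap_psi {ρ : ℝ} (hρ : 0 < ρ) (φ : A →⋆ₙₐ[ℂ] B) (M : CM n A)
    (hM : ‖cmMap φ M‖ ≤ ρ) : cmMap φ (cfcₙ (psi ρ) (star M * M)) = 0 := by
  have hc := psi_cont hρ
  have h0 := psi_zero hρ
  have h1 := NonUnitalStarAlgHom.map_cfcₙ (R := ℝ) (S := ℂ) (cmMap φ) (psi ρ) (star M * M)
    (hc.continuousOn) h0 (map_continuous (cmMap φ)) (IsSelfAdjoint.star_mul_self M)
    ((IsSelfAdjoint.star_mul_self M).map (cmMap φ))
  rw [h1, map_mul, map_star]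
  exact cfcn_psi_eq_zero hρ _ hM

end

end LiftAux

section SE

variable {X : Type u} [Groupoid.{u} X] [TopologicalSpace X] [TopologicalSpace (Arr X)]
variable [EtaleGroupoid X] {I A B : GAlg.{u, v} X} (ι : GHom I A) (π : GHom A B)

open LiftAux in
/-- lifting with norm control (uses FC, MN1): a matrix `M` over the sections of `A` whose image
in `B` has norm at most `ρ` is the sum of a matrix over `I` and a matrix of norm at most `ρ` -/
theorem exists_lift (h : GShortExact ι π) {r : ℕ} (M : ∀ y, Fin r → Fin r → A.fib y)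
    (hM : ∀ i j, (fun y => M y i j) ∈ A.sec) (ρ : ℝ) (hρ : 0 < ρ)
    (hπ : ∀ y, matNorm (fun i j => π.app y (M y i j)) ≤ ρ) :
    ∃ e : ∀ y, Fin r → Fin r → I.fib y, (∀ i j, (fun y => e y i j) ∈ I.sec) ∧
      (∀ y, matNorm (fun i j => M y i j - ι.app y (e y i j)) ≤ ρ) ∧
      ∀ y j, (∀ i, M y i j = 0) → ∀ i, e y i j = 0 := by
  classical
  -- the sections
  let Γ : Set (∀ y, CM (Fin r) (A.fib y)) :=
    {m | (∀ i j, (fun y => m y i j) ∈ A.sec) ∧ ∀ y j, (∀ i, M y i j = 0) → ∀ i, m y i j = 0}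
  have sum_mem : ∀ {κ : Type} (s : Finset κ) (a : κ → ∀ y, A.fib y), (∀ k, a k ∈ A.sec) →
      (fun y => ∑ k ∈ s, a k y) ∈ A.sec := by
    intro κ s a ha
    induction s using Finset.induction_on with
    | empty => simpa using A.zero_mem
    | insert k s hk ih =>
      simp only [Finset.sum_insert hk]
      exact A.add_mem _ (ha k) _ ih
  let N : ∀ y, CM (Fin r) (A.fib y) := fun y => M y
  have hN : N ∈ Γ := ⟨fun i j => hM i j, fun y j hj i => hj i⟩
  let a : ∀ y, CM (Fin r) (A.fib y) := fun y => star (N y) * N y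
  have hmul : ∀ a ∈ Γ, ∀ b ∈ Γ, (fun y => a y * b y) ∈ Γ := by
    intro a ha b hb
    refine ⟨fun i j => ?_, fun y j hj i => ?_⟩
    · simp only [cm_mul]
      exact sum_mem _ (fun k y => a y i k * b y k j)
        fun k => A.mul_mem _ (ha.1 i k) _ (hb.1 k j)
    · simp only [cm_mul]
      exact Finset.sum_eq_zero fun k _ => by rw [hb.2 y j hj k, mul_zero]
  have ha : a ∈ Γ := by
    refine ⟨fun i j => ?_, fun y j hj i => ?_⟩
    · simp only [a, cm_mul, cm_star]
      exact sum_mem _ (fun k y => star (N y k i) * N y k j)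
        fun k => A.mul_mem _ (A.star_mem _ (hN.1 k i)) _ (hN.1 k j)
    · simp only [a, cm_mul]
      exact Finset.sum_eq_zero fun k _ => by rw [hN.2 y j hj k, mul_zero]
  -- a uniform bound
  obtain ⟨R, hR⟩ : ∃ R : ℝ, ∀ y, ‖a y‖ ≤ R := by
    choose R hR0 hR using fun i j => sec_bdd A (fun y => M y i j) (hM i j)
    refine ⟨(∑ i, ∑ j, R i j) * (∑ i, ∑ j, R i j), fun y => ?_⟩
    have h1 : ‖N y‖ ≤ ∑ i, ∑ j, R i j := by
      refine (matNorm_le_sum (M y)).trans ?_
      exact Finset.sum_le_sum fun i _ => Finset.sum_le_sum fun j _ => hR i j y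
    calc ‖a y‖ = ‖N y‖ * ‖N y‖ := CStarRing.norm_star_mul_self
      _ ≤ _ := mul_le_mul h1 h1 (norm_nonneg _) ((norm_nonneg _).trans h1)
  have hφ : (fun y => cfcₙ (psi ρ) (a y)) ∈ Γ := by
    refine cfcn_mem_of_closed Γ ?_ ?_ hmul ?_ a ha (fun y => IsSelfAdjoint.star_mul_self (N y))
      R hR (psi ρ) (psi_cont hρ) (psi_zero hρ)
    · intro a ha b hb
      refine ⟨fun i j => A.add_mem _ (ha.1 i j) _ (hb.1 i j), fun y j hj i => ?_⟩
      change a y i j + b y i j = 0
      rw [ha.2 y j hj i, hb.2 y j hj i, add_zero]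
    · intro c a ha
      refine ⟨fun i j => A.smul_mem c _ (ha.1 i j), fun y j hj i => ?_⟩
      change c • a y i j = 0
      rw [ha.2 y j hj i, smul_zero]
    · intro a ha
      have hent : ∀ ε > 0, ∃ b ∈ Γ, ∀ y i j, ‖a y i j - b y i j‖ ≤ ε := by
        intro ε hε
        obtain ⟨b, hb, hab⟩ := ha ε hε
        refine ⟨b, hb, fun y i j => ?_⟩
        exact (norm_entry_le_matNorm (fun i j => a y i j - b y i j) i j).trans (hab y)
      refine ⟨fun i j => A.complete _ fun ε hε => ?_, fun y j hj i => ?_⟩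
      · obtain ⟨b, hb, hab⟩ := hent ε hε
        exact ⟨_, hb.1 i j, fun y => hab y i j⟩
      · rw [← norm_le_zero_iff]
        refine le_of_forall_pos_le_add fun ε hε => ?_
        obtain ⟨b, hb, hab⟩ := hent ε hε
        have := hab y i j
        rw [hb.2 y j hj i, sub_zero] at this
        linarith
  have hP := hmul N hN _ hφ
  -- the image of the product in `B` vanishes
  have hzero : ∀ y i j, π.app y ((N y * cfcₙ (psi ρ) (a y)) i j) = 0 := by
    intro y i j
    have h1 : cmMap (π.app y) (cfcₙ (psi ρ) (a y)) = 0 := cmMap_psi hρ _ _ (hπ y)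
    have h2 : cmMap (π.app y) (N y * cfcₙ (psi ρ) (a y)) = 0 := by
      rw [map_mul, h1, mul_zero]
    exact congrFun (congrFun h2 i) j
  have hex : ∀ y i j, ∃ e, ι.app y e = (N y * cfcₙ (psi ρ) (a y)) i j := fun y i j =>
    (fibre_ker ι π h y _).1 (hzero y i j)
  choose e he using hex
  refine ⟨e, fun i j => ?_, fun y => ?_, fun y j hj i => ?_⟩
  · apply mem_sec_of_map ι π h
    simp only [he]
    exact hP.1 i j
  · simp only [he]
    exact norm_sub_mul_psi_le hρ (N y)
  · apply fibre_inj ι π h y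
    rw [map_zero, he]
    exact hP.2 y j hj i

end SE

end Pool.Agent.KW
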