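import Pool.Agent.Helper79.KW.Base

/-!
# Piece SE3, part one: functional calculus in one C*-algebra
-/

open Topology

namespace Pool.Agent.KW.LiftAux

/-- the cut-off function `t ↦ 1 - ρ / max (√t) ρ` -/
noncomputable def psi (ρ t : ℝ) : ℝ := 1 - ρ / max (√t) ρ

lemma psi_cont {ρ : ℝ} (hρ : 0 < ρ) : Continuous (psi ρ) := by
  unfold psi
  refine continuous_const.sub (continuous_const.div (by fun_prop) fun t => ?_)
  exact (lt_of_lt_of_le hρ (le_max_right _ _)).ne'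

lemma psi_eq_zero {ρ t : ℝ} (hρ : 0 < ρ) (ht : t ≤ ρ ^ 2) : psi ρ t = 0 := by
  have h : √t ≤ ρ := by
    rw [Real.sqrt_le_left hρ.le]; exact ht
  rw [psi, max_eq_right h, div_self hρ.ne', sub_self]

lemma psi_zero {ρ : ℝ} (hρ : 0 < ρ) : psi ρ 0 = 0 := psi_eq_zero hρ (by positivity)

lemma psi_bound {ρ t : ℝ} (hρ : 0 < ρ) (ht : 0 ≤ t) :
    |t - t * psi ρ t - psi ρ t * t + psi ρ t * t * psi ρ t| ≤ ρ ^ 2 := by
  have hm : 0 < max (√t) ρ := lt_of_lt_of_le hρ (le_max_right _ _)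
  have h1 : t - t * psi ρ t - psi ρ t * t + psi ρ t * t * psi ρ t
      = t * (ρ / max (√t) ρ) ^ 2 := by unfold psi; ring
  rw [h1, abs_of_nonneg (by positivity), div_pow, mul_div_assoc', div_le_iff₀ (by positivity)]
  have h2 : t ≤ max (√t) ρ ^ 2 := by
    calc t = √t ^ 2 := (Real.sq_sqrt ht).symm
      _ ≤ _ := by
        gcongr
        exact le_max_left _ _
  nlinarith [sq_nonneg ρ]

variable {C D : Type*} [NonUnitalCStarAlgebra C] [NonUnitalCStarAlgebra D]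

lemma quasispectrum_nonneg (M : C) (x : ℝ) (hx : x ∈ quasispectrum ℝ (star M * M)) : 0 ≤ x := by
  let := CStarAlgebra.spectralOrder C
  let := CStarAlgebra.spectralOrderedRing C
  exact quasispectrum_nonneg_of_nonneg _ (star_mul_self_nonneg M) x hx

lemma cfcn_psi_eq_zero {ρ : ℝ} (hρ : 0 < ρ) (M : C) (hM : ‖M‖ ≤ ρ) :
    cfcₙ (psi ρ) (star M * M) = 0 := by
  rw [cfcₙ_congr (g := fun _ => 0)]
  · simp
  intro x hx
  refine psi_eq_zero hρ ?_
  have h1 : ‖id x‖ ≤ ‖cfcₙ id (star M * M)‖ :=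
    norm_apply_le_norm_cfcₙ (id : ℝ → ℝ) (star M * M) hx (by fun_prop) rfl
      (IsSelfAdjoint.star_mul_self M)
  rw [cfcₙ_id ℝ (star M * M) (IsSelfAdjoint.star_mul_self M), CStarRing.norm_star_mul_self] at h1
  calc x ≤ ‖id x‖ := le_abs_self x
    _ ≤ ‖M‖ * ‖M‖ := h1
    _ ≤ ρ ^ 2 := by nlinarith [norm_nonneg M]

lemma norm_sub_mul_psi_le {ρ : ℝ} (hρ : 0 < ρ) (M : C) :
    ‖M - M * cfcₙ (psi ρ) (star M * M)‖ ≤ ρ := by
  have hc := (psi_cont hρ)
  have h0 := psi_zero hρ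
  set a : C := star M * M with ha
  have hsa : IsSelfAdjoint a := IsSelfAdjoint.star_mul_self M
  have hps : star (cfcₙ (psi ρ) a) = cfcₙ (psi ρ) a := (cfcₙ_predicate (psi ρ) a).star_eq
  have key : star (M - M * cfcₙ (psi ρ) a) * (M - M * cfcₙ (psi ρ) a)
      = cfcₙ (fun t => t - t * psi ρ t - psi ρ t * t + psi ρ t * t * psi ρ t) a := by
    have e1 : a * cfcₙ (psi ρ) a = cfcₙ (fun t => t * psi ρ t) a := by
      rw [cfcₙ_mul (fun t => t) (psi ρ) a, cfcₙ_id' ℝ a]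
    have e2 : cfcₙ (psi ρ) a * a = cfcₙ (fun t => psi ρ t * t) a := by
      rw [cfcₙ_mul (psi ρ) (fun t => t) a, cfcₙ_id' ℝ a]
    have e3 : cfcₙ (psi ρ) a * a * cfcₙ (psi ρ) a = cfcₙ (fun t => psi ρ t * t * psi ρ t) a := by
      rw [e2, cfcₙ_mul (fun t => psi ρ t * t) (psi ρ) a]
    rw [star_sub, star_mul, hps]
    calc (star M - cfcₙ (psi ρ) a * star M) * (M - M * cfcₙ (psi ρ) a)
        = a - a * cfcₙ (psi ρ) a - cfcₙ (psi ρ) a * a
          + cfcₙ (psi ρ) a * a * cfcₙ (psi ρ) a := by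
          rw [ha]; noncomm_ring
      _ = _ := by
        rw [e3, e1, e2]
        nth_rewrite 1 [← cfcₙ_id' ℝ a]
        rw [← cfcₙ_sub (fun t => t) _ a, ← cfcₙ_sub (fun t => t - t * psi ρ t) _ a,
          ← cfcₙ_add (fun t => t - t * psi ρ t - psi ρ t * t) _ (a := a)]
  have h2 : ‖M - M * cfcₙ (psi ρ) a‖ ^ 2 ≤ ρ ^ 2 := by
    rw [sq, ← CStarRing.norm_star_mul_self, key]
    refine norm_cfcₙ_le fun x hx => ?_
    exact psi_bound hρ (quasispectrum_nonneg M x hx)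
  exact abs_le_of_sq_le_sq' h2 hρ.le |>.2

end Pool.Agent.KW.LiftAux
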